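import Pool.Agent.Lib.MP_ccbbf6_gt.G2.D2

/-!
First order behaviour of the distance near the diagonal, in coordinates.
-/

namespace Pool.Agent.BL.G2

open Set Metric Filter Topology MeasureTheory Asymptotics
open scoped ContDiff
open Pool.Agent.BL.Spray (acc acc_smul)

universe u

set_option linter.unusedSectionVars false
set_option maxSynthPendingDepth 3

variable {E : Type u} [NormedAddCommGroup E] [NormedSpace ℝ E]
variable [FiniteDimensional ℝ E] {G : E → E →L[ℝ] E →L[ℝ] ℝ} {U : Set E}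
variable {y0 : E} {r : ℝ} {Φ : ℝ → E × E → E × E} {ρ : ℝ} {N : Set (E × E)} {lg : E × E → E}

namespace IsNormal

lemma fst_ball (h : IsNormal G U y0 r Φ ρ N lg) {q : E × E} (hq : q ∈ N) : q.1 ∈ ball y0 r := by
  have := h.mem_r hq
  rw [← ball_prod_same] at this
  exact this.1

lemma lg_diag (hG : IsMetricOn G U) (h : IsNormal G U y0 r Φ ρ N lg) {y : E} (hy : (y, y) ∈ N) :
    lg (y, y) = 0 := by
  have h1 := (h.D2_eq_zero hG hy).2 rfl
  exact (hG.en_eq_zero (h.fst_mem hy)).1 h1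

lemma hasFDerivAt_lg (h : IsNormal G U y0 r Φ ρ N lg) {q : E × E} (hq : q ∈ N) :
    HasFDerivAt lg (fderiv ℝ lg q) q :=
  ((h.lg_smooth.contDiffAt (h.open_N.mem_nhds hq)).differentiableAt (by simp)).hasFDerivAt

/-- differential of the logarithm on the diagonal -/
lemma fderiv_lg_diag (hG : IsMetricOn G U) (h : IsNormal G U y0 r Φ ρ N lg) {y : E}
    (hy : (y, y) ∈ N) (k : E × E) : fderiv ℝ lg (y, y) k = k.2 - k.1 := by
  have hd := h.hasFDerivAt_lg hy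
  have hp : HasFDerivAt (fun q : E × E => (q.1, lg q))
      ((ContinuousLinearMap.fst ℝ E E).prod (fderiv ℝ lg (y, y))) (y, y) := hasFDerivAt_fst.prodMk hd
  have h0 := h.lg_diag hG hy
  have h1 : HasFDerivAt (Φ 1) (fderiv ℝ (Φ 1) (y, 0)) ((fun q : E × E => (q.1, lg q)) (y, y)) := by
    simp only [h0]
    exact h.flow.hasFDerivAt_right 1 (y, 0)
  have h3 : HasFDerivAt (fun q : E × E => (Φ 1 (q.1, lg q)).1)
      ((ContinuousLinearMap.fst ℝ E E).comp ((fderiv ℝ (Φ 1) (y, 0)).comp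
        ((ContinuousLinearMap.fst ℝ E E).prod (fderiv ℝ lg (y, y))))) (y, y) :=
    (ContinuousLinearMap.fst ℝ E E).hasFDerivAt.comp (y, y) (h1.comp (y, y) hp)
  have h4 : (fun q : E × E => (Φ 1 (q.1, lg q)).1) =ᶠ[𝓝 (y, y)] Prod.snd := by
    filter_upwards [h.open_N.mem_nhds hy] with p hp
    exact h.exp_lg p hp
  have h5 := (h3.congr_of_eventuallyEq h4.symm).unique hasFDerivAt_snd
  have h6 := congrArg (fun L : E × E →L[ℝ] E => L k) h5
  have h7 : (fderiv ℝ (Φ 1) (y, 0) (k.1, fderiv ℝ lg (y, y) k)).1 = k.2 := h6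
  rw [h.flow.fderiv_exp_zero hG (h.fst_ball hy)] at h7
  simp only at h7
  rw [← h7]
  simp

/-- the logarithm is close to the difference -/
lemma lg_near (hG : IsMetricOn G U) (h : IsNormal G U y0 r Φ ρ N lg) {c : ℝ} (hc : 0 < c) :
    ∀ᶠ q : E × E in 𝓝 (y0, y0), ‖lg q - (q.2 - q.1)‖ ≤ c * ‖q.2 - q.1‖ := by
  have h1 : HasStrictFDerivAt lg (fderiv ℝ lg (y0, y0)) (y0, y0) :=
    (h.lg_smooth.contDiffAt (h.open_N.mem_nhds h.mem_N)).hasStrictFDerivAt (by simp)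
  have h2 := h1.isLittleO
  have ht : Tendsto (fun q : E × E => ((q, (q.1, q.1)) : (E × E) × (E × E))) (𝓝 (y0, y0))
      (𝓝 ((y0, y0), (y0, y0))) := by
    have : Continuous (fun q : E × E => ((q, (q.1, q.1)) : (E × E) × (E × E))) := by fun_prop
    exact this.tendsto (y0, y0)
  have h3 := (h2.comp_tendsto ht).def hc
  have h4 : ∀ᶠ q : E × E in 𝓝 (y0, y0), (q.1, q.1) ∈ N := by
    have h5 : Continuous (fun q : E × E => ((q.1, q.1) : E × E)) := by fun_prop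
    exact (h5.tendsto (y0, y0)).eventually (h.open_N.mem_nhds h.mem_N)
  filter_upwards [h3, h4] with q hq1 hq2
  simp only [Function.comp] at hq1
  rw [h.lg_diag hG hq2, h.fderiv_lg_diag hG h.mem_N] at hq1
  simp only [sub_zero, Prod.fst_sub, Prod.snd_sub, sub_self] at hq1
  refine hq1.trans (le_of_eq ?_)
  have h6 : q - (q.1, q.1) = (0, q.2 - q.1) := by
    ext <;> simp
  rw [h6, Prod.norm_mk, norm_zero, max_eq_right (norm_nonneg _)]

/-- **First order behaviour** of the distance near the diagonal. -/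
theorem sqrt_D2_near {F : Type*} [NormedAddCommGroup F] [InnerProductSpace ℝ F]
    (hG : IsMetricOn G U) (h : IsNormal G U y0 r Φ ρ N lg) (L : E ≃L[ℝ] F)
    (hL : ∀ v, ‖L v‖ ^ 2 = G y0 v v) {ε : ℝ} (hε : 0 < ε) :
    ∀ᶠ q : E × E in 𝓝 (y0, y0), |√(D2 G lg q) - ‖L (q.1 - q.2)‖| ≤ ε * ‖L (q.1 - q.2)‖ := by
  obtain ⟨K, hK0, hK⟩ : ∃ K : ℝ, 0 < K ∧ ∀ v, ‖v‖ ≤ K * ‖L v‖ := by
    refine ⟨‖(L.symm : F →L[ℝ] E)‖ + 1, by positivity, fun v => ?_⟩
    calc ‖v‖ = ‖(L.symm : F →L[ℝ] E) (L v)‖ := by simp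
      _ ≤ ‖(L.symm : F →L[ℝ] E)‖ * ‖L v‖ := ContinuousLinearMap.le_opNorm _ _
      _ ≤ (‖(L.symm : F →L[ℝ] E)‖ + 1) * ‖L v‖ := by gcongr; linarith
  obtain ⟨A, hA0, hA⟩ : ∃ A : ℝ, 0 < A ∧ ∀ v, ‖L v‖ ≤ A * ‖v‖ := by
    refine ⟨‖(L : E →L[ℝ] F)‖ + 1, by positivity, fun v => ?_⟩
    calc ‖L v‖ = ‖(L : E →L[ℝ] F) v‖ := rfl
      _ ≤ ‖(L : E →L[ℝ] F)‖ * ‖v‖ := ContinuousLinearMap.le_opNorm _ _
      _ ≤ (‖(L : E →L[ℝ] F)‖ + 1) * ‖v‖ := by gcongr; linarith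
  obtain ⟨c, hc0, hc1, hc⟩ : ∃ c : ℝ, 0 < c ∧ c ≤ 1 ∧ c * (K ^ 2 * (1 + A * K) + A * K) ≤ ε := by
    have hpos : 0 < K ^ 2 * (1 + A * K) + A * K := by positivity
    refine ⟨min 1 (ε / (K ^ 2 * (1 + A * K) + A * K)), lt_min one_pos (by positivity),
      min_le_left _ _, ?_⟩
    calc min 1 (ε / (K ^ 2 * (1 + A * K) + A * K)) * (K ^ 2 * (1 + A * K) + A * K)
        ≤ ε / (K ^ 2 * (1 + A * K) + A * K) * (K ^ 2 * (1 + A * K) + A * K) := by
          gcongr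
          exact min_le_right _ _
      _ = ε := div_mul_cancel₀ _ hpos.ne'
  have hGc : ∀ᶠ q : E × E in 𝓝 (y0, y0), ‖G q.1 - G y0‖ ≤ c := by
    have h1 : ContinuousAt G y0 := (hG.smooth.continuousOn).continuousAt
      (hG.isOpen.mem_nhds (h.fst_mem h.mem_N))
    have h2 : ContinuousAt (fun q : E × E => G q.1) (y0, y0) :=
      ContinuousAt.comp (g := G) h1 continuousAt_fst
    have h3 := (Metric.continuousAt_iff'.1 h2) c hc0
    filter_upwards [h3] with q hq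
    rw [← dist_eq_norm]
    exact hq.le
  have hN : ∀ᶠ q : E × E in 𝓝 (y0, y0), q ∈ N := h.open_N.mem_nhds h.mem_N
  filter_upwards [h.lg_near hG hc0, hGc, hN] with q h1 h2 h3
  have hLd : ‖L (q.1 - q.2)‖ = ‖L (q.2 - q.1)‖ := by
    rw [← neg_sub q.2 q.1, map_neg, norm_neg]
  rw [hLd]
  set d := q.2 - q.1 with hd
  set l := lg q with hl
  have hLl : ‖L l - L d‖ ≤ A * K * c * ‖L d‖ := by
    rw [← map_sub]
    calc ‖L (l - d)‖ ≤ A * ‖l - d‖ := hA _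
      _ ≤ A * (c * ‖d‖) := by gcongr
      _ ≤ A * (c * (K * ‖L d‖)) := by gcongr; exact hK _
      _ = A * K * c * ‖L d‖ := by ring
  have hLl2 : ‖L l‖ ≤ (1 + A * K) * ‖L d‖ := by
    have h4 : ‖L l‖ ≤ ‖L d‖ + ‖L l - L d‖ := by
      have := norm_add_le (L d) (L l - L d)
      simpa using this
    have h5 : A * K * c * ‖L d‖ ≤ A * K * 1 * ‖L d‖ := by gcongr
    linarith
  have hab : |√(D2 G lg q) - ‖L l‖| ≤ c * K ^ 2 * ‖L l‖ := by
    have h4 : D2 G lg q = G q.1 l l := rfl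
    have h5 : |D2 G lg q - ‖L l‖ ^ 2| ≤ c * K ^ 2 * ‖L l‖ ^ 2 := by
      rw [hL, h4]
      have h6 : G q.1 l l - G y0 l l = (G q.1 - G y0) l l := by simp
      rw [h6]
      calc |(G q.1 - G y0) l l| = ‖(G q.1 - G y0) l l‖ := rfl
        _ ≤ ‖G q.1 - G y0‖ * ‖l‖ * ‖l‖ := ContinuousLinearMap.le_opNorm₂ _ _ _
        _ ≤ c * (K * ‖L l‖) * (K * ‖L l‖) := by
            have := hK l
            gcongr
        _ = c * K ^ 2 * ‖L l‖ ^ 2 := by ring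
        _ = c * K ^ 2 * G y0 l l := by rw [hL]
    by_cases h0 : ‖L l‖ = 0
    · rw [h0] at h5 ⊢
      have h6 : D2 G lg q = 0 := by
        have : |D2 G lg q| ≤ 0 := by simpa using h5
        exact abs_nonpos_iff.1 this
      simp [h6]
    · have hpos : 0 < ‖L l‖ := lt_of_le_of_ne (norm_nonneg _) (Ne.symm h0)
      have hD : 0 ≤ D2 G lg q := h.D2_nonneg hG h3
      have h6 : (√(D2 G lg q) - ‖L l‖) * (√(D2 G lg q) + ‖L l‖) = D2 G lg q - ‖L l‖ ^ 2 := by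
        linear_combination Real.sq_sqrt hD
      have hs : 0 < √(D2 G lg q) + ‖L l‖ := by positivity
      have h7 : |√(D2 G lg q) - ‖L l‖| * (√(D2 G lg q) + ‖L l‖) ≤ c * K ^ 2 * ‖L l‖ ^ 2 := by
        rw [← abs_of_pos hs, ← abs_mul, h6]
        exact h5
      have h8 : |√(D2 G lg q) - ‖L l‖| * ‖L l‖ ≤ c * K ^ 2 * ‖L l‖ * ‖L l‖ := by
        calc |√(D2 G lg q) - ‖L l‖| * ‖L l‖ ≤ |√(D2 G lg q) - ‖L l‖| * (√(D2 G lg q) + ‖L l‖) := by
              gcongr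
              linarith [Real.sqrt_nonneg (D2 G lg q)]
          _ ≤ c * K ^ 2 * ‖L l‖ ^ 2 := h7
          _ = c * K ^ 2 * ‖L l‖ * ‖L l‖ := by ring
      exact le_of_mul_le_mul_right h8 hpos
  calc |√(D2 G lg q) - ‖L d‖| ≤ |√(D2 G lg q) - ‖L l‖| + |‖L l‖ - ‖L d‖| := abs_sub_le _ _ _
    _ ≤ c * K ^ 2 * ‖L l‖ + ‖L l - L d‖ := add_le_add hab (abs_norm_sub_norm_le _ _)
    _ ≤ c * K ^ 2 * ((1 + A * K) * ‖L d‖) + A * K * c * ‖L d‖ := by gcongr
    _ = c * (K ^ 2 * (1 + A * K) + A * K) * ‖L d‖ := by ring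
    _ ≤ ε * ‖L d‖ := by gcongr

end IsNormal

end Pool.Agent.BL.G2
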