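import Pool.Agent.Lib.MP_ccbbf6_gt.Spray.Acc

/-!
Local Riemannian metrics on open subsets of a finite dimensional normed space; geodesic acceleration.
-/

namespace Pool.Agent.BL.G2

open Set Metric Filter Topology
open scoped ContDiff
open Pool.Agent.BL.Spray (acc acc_smul acc_spec isInvertible_of_pos)

universe u

set_option linter.unusedSectionVars false
set_option maxSynthPendingDepth 3

lemma hasDerivAt_fst' {E F : Type*} [NormedAddCommGroup E] [NormedSpace ℝ E]
    [NormedAddCommGroup F] [NormedSpace ℝ F] {c : ℝ → E × F} {c' : E × F} {t : ℝ}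
    (h : HasDerivAt c c' t) : HasDerivAt (fun s => (c s).1) c'.1 t := by
  have := (ContinuousLinearMap.fst ℝ E F).hasFDerivAt.comp_hasDerivAt t h
  exact this

lemma hasDerivAt_snd' {E F : Type*} [NormedAddCommGroup E] [NormedSpace ℝ E]
    [NormedAddCommGroup F] [NormedSpace ℝ F] {c : ℝ → E × F} {c' : E × F} {t : ℝ}
    (h : HasDerivAt c c' t) : HasDerivAt (fun s => (c s).2) c'.2 t := by
  have := (ContinuousLinearMap.snd ℝ E F).hasFDerivAt.comp_hasDerivAt t h
  exact this

variable {E : Type u} [NormedAddCommGroup E] [NormedSpace ℝ E]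

/-- `G` is a smooth Riemannian metric on the open set `U`. -/
structure IsMetricOn (G : E → E →L[ℝ] E →L[ℝ] ℝ) (U : Set E) : Prop where
  isOpen : IsOpen U
  smooth : ContDiffOn ℝ ∞ G U
  symm : ∀ y ∈ U, ∀ u v, G y u v = G y v u
  pos : ∀ y ∈ U, ∀ u, u ≠ 0 → 0 < G y u u

/-- the geodesic vector field -/
noncomputable def geoV (G : E → E →L[ℝ] E →L[ℝ] ℝ) (x : E × E) : E × E := (x.2, acc G x.1 x.2)

/-- the energy (square of the speed) -/
noncomputable def en (G : E → E →L[ℝ] E →L[ℝ] ℝ) (x : E × E) : ℝ := G x.1 x.2 x.2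

@[simp] lemma acc_zero (G : E → E →L[ℝ] E →L[ℝ] ℝ) (y : E) : acc G y 0 = 0 := by
  have := acc_smul G y 0 0
  simpa using this

@[simp] lemma geoV_zero (G : E → E →L[ℝ] E →L[ℝ] ℝ) (y : E) : geoV G (y, 0) = 0 := by
  simp [geoV]

lemma en_smul (G : E → E →L[ℝ] E →L[ℝ] ℝ) (y w : E) (c : ℝ) :
    en G (y, c • w) = c ^ 2 * en G (y, w) := by
  simp [en]
  ring

section Fin

variable [FiniteDimensional ℝ E] {G : E → E →L[ℝ] E →L[ℝ] ℝ} {U : Set E}

lemma IsMetricOn.isInvertible (hG : IsMetricOn G U) {y : E} (hy : y ∈ U) : (G y).IsInvertible :=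
  isInvertible_of_pos (fun a ha => hG.pos y hy a ha)

lemma IsMetricOn.apply_acc (hG : IsMetricOn G U) {y : E} (hy : y ∈ U) (w u : E) :
    G y (acc G y w) u = (1 / 2 : ℝ) * fderiv ℝ G y u w w - fderiv ℝ G y w w u :=
  acc_spec (hG.isInvertible hy) w u

lemma IsMetricOn.contDiffOn_acc (hG : IsMetricOn G U) :
    ContDiffOn ℝ ∞ (fun x : E × E => acc G x.1 x.2) (U ×ˢ univ) := by
  have : CompleteSpace E := FiniteDimensional.complete ℝ E
  exact Pool.Agent.BL.Spray.contDiffOn_acc hG.isOpen hG.smooth (fun y hy => hG.isInvertible hy)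

lemma IsMetricOn.contDiffOn_geoV (hG : IsMetricOn G U) :
    ContDiffOn ℝ ∞ (geoV G) (U ×ˢ univ) :=
  contDiff_snd.contDiffOn.prodMk hG.contDiffOn_acc

lemma IsMetricOn.contDiffOn_en (hG : IsMetricOn G U) :
    ContDiffOn ℝ ∞ (en G) (U ×ˢ univ) := by
  have h : ContDiffOn ℝ ∞ (fun x : E × E => G x.1) (U ×ˢ univ) :=
    hG.smooth.comp contDiff_fst.contDiffOn (fun x hx => hx.1)
  exact (h.clm_apply contDiff_snd.contDiffOn).clm_apply contDiff_snd.contDiffOn

lemma IsMetricOn.isOpen_prod (hG : IsMetricOn G U) : IsOpen (U ×ˢ (univ : Set E)) :=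
  hG.isOpen.prod isOpen_univ

lemma IsMetricOn.differentiableAt (hG : IsMetricOn G U) {y : E} (hy : y ∈ U) :
    DifferentiableAt ℝ G y :=
  (hG.smooth.contDiffAt (hG.isOpen.mem_nhds hy)).differentiableAt (by simp)

/-- the derivative of the metric is symmetric -/
lemma IsMetricOn.fderiv_symm (hG : IsMetricOn G U) {y : E} (hy : y ∈ U) (k u v : E) :
    fderiv ℝ G y k u v = fderiv ℝ G y k v u := by
  have hd := (hG.differentiableAt hy).hasFDerivAt
  have h1 : HasFDerivAt (fun z => G z u v) _ y :=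
    (hd.clm_apply (hasFDerivAt_const u y)).clm_apply (hasFDerivAt_const v y)
  have h2 : HasFDerivAt (fun z => G z v u) _ y :=
    (hd.clm_apply (hasFDerivAt_const v y)).clm_apply (hasFDerivAt_const u y)
  have h3 : (fun z => G z u v) =ᶠ[𝓝 y] fun z => G z v u := by
    filter_upwards [hG.isOpen.mem_nhds hy] with z hz
    exact hG.symm z hz u v
  have h4 := (h1.congr_of_eventuallyEq h3.symm).unique h2
  have h5 := congrArg (fun L : E →L[ℝ] ℝ => L k) h4
  simpa using h5

lemma IsMetricOn.en_nonneg (hG : IsMetricOn G U) {y : E} (hy : y ∈ U) (w : E) :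
    0 ≤ en G (y, w) := by
  by_cases h : w = 0
  · simp [en, h]
  · exact (hG.pos y hy w h).le

lemma IsMetricOn.en_eq_zero (hG : IsMetricOn G U) {y : E} (hy : y ∈ U) {w : E} :
    en G (y, w) = 0 ↔ w = 0 := by
  constructor
  · intro h
    by_contra hne
    exact absurd h (hG.pos y hy w hne).ne'
  · rintro rfl
    simp [en]

/-- Cauchy-Schwarz -/
lemma IsMetricOn.cauchy (hG : IsMetricOn G U) {y : E} (hy : y ∈ U) (u v : E) :
    (G y u v) ^ 2 ≤ G y u u * G y v v := by
  by_cases h : v = 0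
  · simp [h]
  have hv := hG.pos y hy v h
  have h1 : 0 ≤ G y (G y v v • u - G y u v • v) (G y v v • u - G y u v • v) := by
    by_cases h0 : G y v v • u - G y u v • v = 0
    · rw [h0]; simp
    · exact (hG.pos y hy _ h0).le
  have h2 : G y (G y v v • u - G y u v • v) (G y v v • u - G y u v • v)
      = G y v v * (G y u u * G y v v - (G y u v) ^ 2) := by
    simp only [map_sub, map_smul, sub_apply, smul_apply,
      smul_eq_mul]
    rw [hG.symm y hy v u]
    ring
  rw [h2] at h1
  have h3 : 0 ≤ G y u u * G y v v - (G y u v) ^ 2 := by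
    by_contra hneg
    push Not at hneg
    exact absurd h1 (not_le.2 (mul_neg_of_pos_of_neg hv hneg))
  linarith

end Fin

end Pool.Agent.BL.G2
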