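import Pool.Agent.Lib.MP_ccbbf6_gt.G2.Exp

/-!
Properties of the square of the distance in normal coordinates: smoothness, first variation, eikonal
equation, and the comparison of lengths.
-/

namespace Pool.Agent.BL.G2

open Set Metric Filter Topology MeasureTheory
open scoped ContDiff
open Pool.Agent.BL.Spray (acc acc_smul)

universe u

set_option linter.unusedSectionVars false
set_option maxSynthPendingDepth 3

variable {E : Type u} [NormedAddCommGroup E] [NormedSpace ℝ E]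
variable [FiniteDimensional ℝ E] {G : E → E →L[ℝ] E →L[ℝ] ℝ} {U : Set E}
variable {y0 : E} {r : ℝ} {Φ : ℝ → E × E → E × E} {ρ : ℝ} {N : Set (E × E)} {lg : E × E → E}

namespace IsNormal

lemma mem_r (h : IsNormal G U y0 r Φ ρ N lg) {q : E × E} (hq : q ∈ N) :
    (q.1, lg q) ∈ ball (y0, (0 : E)) r := ball_subset_ball h.ρ_le (h.lg_mem q hq)

lemma fst_mem (h : IsNormal G U y0 r Φ ρ N lg) {q : E × E} (hq : q ∈ N) : q.1 ∈ U := by
  have h1 := h.flow.mem _ (h.mem_r hq) 0 (by simp)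
  rwa [h.flow.zero] at h1

lemma snd_mem (h : IsNormal G U y0 r Φ ρ N lg) {q : E × E} (hq : q ∈ N) : q.2 ∈ U := by
  have h1 := h.flow.mem _ (h.mem_r hq) 1 (by norm_num)
  rwa [h.exp_lg q hq] at h1

/-- the geodesic from `q.1` to `q.2` stays in the normal neighbourhood of `q.1` -/
lemma ray_mem (hG : IsMetricOn G U) (h : IsNormal G U y0 r Φ ρ N lg) {q : E × E} (hq : q ∈ N)
    {s : ℝ} (hs : |s| ≤ 1) : (q.1, (Φ s (q.1, lg q)).1) ∈ N ∧
      lg (q.1, (Φ s (q.1, lg q)).1) = s • lg q := by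
  have h1 : (q.1, s • lg q) ∈ ball (y0, (0 : E)) ρ := IsGeoFlow.smul_mem hs (h.lg_mem q hq)
  have h2 := h.flow.homog hG (h.mem_r hq) hs (t := 1) (by norm_num)
  have h3 := h.exp_mem _ h1
  have h4 := h.lg_exp _ h1
  simp only [h2, mul_one] at h3 h4
  exact ⟨h3, h4⟩

lemma contDiffOn_pair (h : IsNormal G U y0 r Φ ρ N lg) :
    ContDiffOn ℝ ∞ (fun q : E × E => (q.1, lg q)) N :=
  contDiff_fst.contDiffOn.prodMk h.lg_smooth

lemma contDiffOn_D2 (hG : IsMetricOn G U) (h : IsNormal G U y0 r Φ ρ N lg) :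
    ContDiffOn ℝ ∞ (D2 G lg) N :=
  hG.contDiffOn_en.comp h.contDiffOn_pair (fun q hq => ⟨h.fst_mem (q := q) hq, mem_univ _⟩)

lemma contDiffOn_v1 (h : IsNormal G U y0 r Φ ρ N lg) : ContDiffOn ℝ ∞ (v1 Φ lg) N :=
  contDiff_snd.comp_contDiffOn ((h.flow.smooth_right 1).comp_contDiffOn h.contDiffOn_pair)

lemma D2_nonneg (hG : IsMetricOn G U) (h : IsNormal G U y0 r Φ ρ N lg) {q : E × E} (hq : q ∈ N) :
    0 ≤ D2 G lg q := hG.en_nonneg (h.fst_mem hq) _

/-- terminal speed -/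
lemma v1_self (hG : IsMetricOn G U) (h : IsNormal G U y0 r Φ ρ N lg) {q : E × E} (hq : q ∈ N) :
    G q.2 (v1 Φ lg q) (v1 Φ lg q) = D2 G lg q := by
  have h1 := h.flow.energy hG (h.mem_r hq) (t := 1) (by norm_num)
  have h2 : en G (Φ 1 (q.1, lg q)) = G q.2 (v1 Φ lg q) (v1 Φ lg q) := by
    simp only [en, v1, h.exp_lg q hq]
  rw [← h2, h1]
  rfl

lemma D2_eq_zero (hG : IsMetricOn G U) (h : IsNormal G U y0 r Φ ρ N lg) {q : E × E} (hq : q ∈ N) :
    D2 G lg q = 0 ↔ q.1 = q.2 := by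
  have hy : q.1 ∈ ball y0 r := by
    have := h.mem_r hq
    rw [← ball_prod_same] at this
    exact this.1
  constructor
  · intro h0
    have h1 : lg q = 0 := (hG.en_eq_zero (h.fst_mem hq)).1 h0
    have h2 := h.exp_lg q hq
    rw [h1, h.flow.const hG hy (by norm_num)] at h2
    exact h2
  · intro h0
    have hyρ : (q.1, (0 : E)) ∈ ball (y0, (0 : E)) ρ := by
      have := h.lg_mem q hq
      rw [← ball_prod_same] at this ⊢
      exact ⟨this.1, by simpa using h.ρ_pos⟩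
    have h2 := h.lg_exp _ hyρ
    rw [h.flow.const hG hy (by norm_num)] at h2
    simp only at h2
    have h3 : (q.1, q.1) = q := Prod.ext rfl h0
    rw [h3] at h2
    exact (hG.en_eq_zero (h.fst_mem hq)).2 h2

/-- scaling of `D2` along the geodesic -/
lemma D2_ray (hG : IsMetricOn G U) (h : IsNormal G U y0 r Φ ρ N lg) {q : E × E} (hq : q ∈ N)
    {s : ℝ} (hs : |s| ≤ 1) : D2 G lg (q.1, (Φ s (q.1, lg q)).1) = s ^ 2 * D2 G lg q := by
  have h1 := (h.ray_mem hG hq hs).2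
  simp only [D2, h1]
  exact en_smul G q.1 (lg q) s

/-- **First variation** of the square of the distance. -/
theorem fderiv_D2 (hG : IsMetricOn G U) (h : IsNormal G U y0 r Φ ρ N lg) {q : E × E} (hq : q ∈ N)
    (k : E × E) : fderiv ℝ (D2 G lg) q k =
      2 * (G q.2 (v1 Φ lg q) k.2 - G q.1 (lg q) k.1) := by
  have hd : HasFDerivAt lg (fderiv ℝ lg q) q :=
    ((h.lg_smooth.contDiffAt (h.open_N.mem_nhds hq)).differentiableAt (by simp)).hasFDerivAt
  have hp : HasFDerivAt (fun q : E × E => (q.1, lg q))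
      ((ContinuousLinearMap.fst ℝ E E).prod (fderiv ℝ lg q)) q := hasFDerivAt_fst.prodMk hd
  have h1 : HasFDerivAt (D2 G lg) ((fderiv ℝ (en G) (q.1, lg q)).comp
      ((ContinuousLinearMap.fst ℝ E E).prod (fderiv ℝ lg q))) q := by
    have h2 : DifferentiableAt ℝ (en G) (q.1, lg q) :=
      hG.differentiableAt_en (h.fst_mem (q := q) hq)
    exact h2.hasFDerivAt.comp q hp
  have h2 : (fderiv ℝ (Φ 1) (q.1, lg q) (k.1, fderiv ℝ lg q k)).1 = k.2 := by
    have h3 : HasFDerivAt (fun q : E × E => (Φ 1 (q.1, lg q)).1)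
        ((ContinuousLinearMap.fst ℝ E E).comp ((fderiv ℝ (Φ 1) (q.1, lg q)).comp
          ((ContinuousLinearMap.fst ℝ E E).prod (fderiv ℝ lg q)))) q :=
      (ContinuousLinearMap.fst ℝ E E).hasFDerivAt.comp q
        ((h.flow.hasFDerivAt_right 1 (q.1, lg q)).comp q hp)
    have h4 : (fun q : E × E => (Φ 1 (q.1, lg q)).1) =ᶠ[𝓝 q] Prod.snd := by
      filter_upwards [h.open_N.mem_nhds hq] with p hp
      exact h.exp_lg p hp
    have h5 := (h3.congr_of_eventuallyEq h4.symm).unique hasFDerivAt_snd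
    exact congrArg (fun L : E × E →L[ℝ] E => L k) h5
  have h3 := h.flow.gauss hG (h.mem_r hq) (t := 1) (by norm_num) (k.1, fderiv ℝ lg q k)
  rw [h2, h.exp_lg q hq] at h3
  have h4 : fderiv ℝ (D2 G lg) q k = fderiv ℝ (en G) (q.1, lg q) (k.1, fderiv ℝ lg q k) := by
    rw [h1.fderiv]
    rfl
  rw [h4]
  simp only [v1]
  linarith

lemma hasFDerivAt_D2 (hG : IsMetricOn G U) (h : IsNormal G U y0 r Φ ρ N lg) {q : E × E}
    (hq : q ∈ N) : HasFDerivAt (D2 G lg) (fderiv ℝ (D2 G lg) q) q :=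
  (((h.contDiffOn_D2 hG).contDiffAt (h.open_N.mem_nhds hq)).differentiableAt (by simp)).hasFDerivAt

/-- **Comparison of lengths.** A `C^1` curve in the normal neighbourhood of its starting point is at
least as long as the geodesic. -/
theorem sqrt_D2_le (hG : IsMetricOn G U) (h : IsNormal G U y0 r Φ ρ N lg) {a b : ℝ} (hab : a ≤ b)
    {σ σ' : ℝ → E} (hσ : ∀ t ∈ Icc a b, HasDerivAt σ (σ' t) t) (hσ' : ContinuousOn σ' (Icc a b))
    (hN : ∀ t ∈ Icc a b, (σ a, σ t) ∈ N) :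
    √(D2 G lg (σ a, σ b)) ≤ ∫ t in a..b, √(G (σ t) (σ' t) (σ' t)) := by
  have hcont : ContinuousOn (fun t => √(G (σ t) (σ' t) (σ' t))) (Icc a b) := by
    have h1 : ContinuousOn σ (Icc a b) := fun t ht => (hσ t ht).continuousAt.continuousWithinAt
    have h2 : ContinuousOn (fun t => G (σ t)) (Icc a b) :=
      hG.smooth.continuousOn.comp h1 (fun t ht => h.snd_mem (hN t ht))
    exact ((h2.clm_apply hσ').clm_apply hσ').sqrt
  have key : ∀ η > 0, √(D2 G lg (σ a, σ b)) ≤ (∫ t in a..b, √(G (σ t) (σ' t) (σ' t))) + η := by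
    intro η hη
    have hpos : ∀ t ∈ Icc a b, 0 < D2 G lg (σ a, σ t) + η ^ 2 := fun t ht => by
      have := h.D2_nonneg hG (hN t ht)
      positivity
    have hder : ∀ t ∈ Icc a b, HasDerivAt (fun t => √(D2 G lg (σ a, σ t) + η ^ 2))
        (2 * G (σ t) (v1 Φ lg (σ a, σ t)) (σ' t) / (2 * √(D2 G lg (σ a, σ t) + η ^ 2))) t := by
      intro t ht
      have h1 := (h.hasFDerivAt_D2 hG (hN t ht)).comp_hasDerivAt t
        ((hasDerivAt_const t (σ a)).prodMk (hσ t ht))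
      have h2 := (h1.add_const (η ^ 2)).sqrt (hpos t ht).ne'
      refine h2.congr_deriv ?_
      rw [h.fderiv_D2 hG (hN t ht)]
      simp only [Function.comp, map_zero, sub_zero]
    have hle : ∀ t ∈ Icc a b, 2 * G (σ t) (v1 Φ lg (σ a, σ t)) (σ' t) /
        (2 * √(D2 G lg (σ a, σ t) + η ^ 2)) ≤ √(G (σ t) (σ' t) (σ' t)) := by
      intro t ht
      have hs := hpos t ht
      have hs' : 0 < √(D2 G lg (σ a, σ t) + η ^ 2) := Real.sqrt_pos.2 hs
      rw [mul_div_mul_left _ _ (two_ne_zero), div_le_iff₀ hs']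
      have h1 := hG.cauchy (h.snd_mem (hN t ht)) (v1 Φ lg (σ a, σ t)) (σ' t)
      rw [h.v1_self hG (hN t ht)] at h1
      have h2 : 0 ≤ G (σ t) (σ' t) (σ' t) := hG.en_nonneg (h.snd_mem (hN t ht)) (σ' t)
      calc G (σ t) (v1 Φ lg (σ a, σ t)) (σ' t) ≤ |G (σ t) (v1 Φ lg (σ a, σ t)) (σ' t)| :=
            le_abs_self _
        _ = √((G (σ t) (v1 Φ lg (σ a, σ t)) (σ' t)) ^ 2) := (Real.sqrt_sq_eq_abs _).symm
        _ ≤ √(G (σ t) (σ' t) (σ' t) * (D2 G lg (σ a, σ t) + η ^ 2)) := by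
            apply Real.sqrt_le_sqrt
            refine h1.trans ?_
            nlinarith [sq_nonneg η]
        _ = √(G (σ t) (σ' t) (σ' t)) * √(D2 G lg (σ a, σ t) + η ^ 2) := Real.sqrt_mul h2 _
    have h3 := intervalIntegral.sub_le_integral_of_hasDeriv_right_of_le hab
      (g := fun t => √(D2 G lg (σ a, σ t) + η ^ 2))
      (fun t ht => (hder t ht).continuousAt.continuousWithinAt)
      (fun t ht => (hder t (Ioo_subset_Icc_self ht)).hasDerivWithinAt)
      hcont.integrableOn_Icc (fun t ht => hle t (Ioo_subset_Icc_self ht))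
    have h4 : D2 G lg (σ a, σ a) = 0 :=
      (h.D2_eq_zero hG (hN a (left_mem_Icc.2 hab))).2 rfl
    rw [h4, zero_add, Real.sqrt_sq hη.le] at h3
    have h5 : √(D2 G lg (σ a, σ b)) ≤ √(D2 G lg (σ a, σ b) + η ^ 2) :=
      Real.sqrt_le_sqrt (by nlinarith [sq_nonneg η])
    linarith
  exact le_of_forall_pos_le_add key

end IsNormal

end Pool.Agent.BL.G2
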