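import Pool.Agent.Lib.MP_ccbbf6_gt.Spray.Chart

/-!
Speed and length of curves of a Riemannian manifold read in a chart.
-/

namespace Pool.Agent.BL.G2

open Set Metric Filter Topology MeasureTheory Manifold Bundle
open scoped ContDiff ENNReal
open Pool.Agent.BL.Spray (acc acc_smul gch gform gform_apply gch_symm gch_pos contDiffOn_gch)

universe u

set_option linter.unusedSectionVars false
set_option maxSynthPendingDepth 3

section

variable {E : Type u} [NormedAddCommGroup E] [NormedSpace ℝ E] [FiniteDimensional ℝ E]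
  {H : Type*} [TopologicalSpace H] {I : ModelWithCorners ℝ E H} [I.Boundaryless]
  {M : Type*} [TopologicalSpace M] [ChartedSpace H M] [IsManifold I ∞ M]
  [RiemannianBundle (fun x : M => TangentSpace I x)]

/-- the differential of a chart is the change of coordinates -/
lemma mfderiv_ext {x0 x : M} (hx : x ∈ (extChartAt I x0).source) :
    mfderiv I 𝓘(ℝ, E) (extChartAt I x0) x = tangentCoordChange I x x0 x := by
  have h1 : MDifferentiableAt I 𝓘(ℝ, E) (extChartAt I x0) x := by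
    apply mdifferentiableAt_extChartAt
    rwa [extChartAt_source] at hx
  rw [mfderiv, if_pos h1]
  rfl

/-- speed of a curve read in a chart -/
theorem speed_eq {x0 : M} {γ : ℝ → M} {t : ℝ} (hγ : MDifferentiableAt 𝓘(ℝ, ℝ) I γ t)
    (ht : γ t ∈ (extChartAt I x0).source) :
    ∃ v : E, HasDerivAt (fun s => extChartAt I x0 (γ s)) v t ∧
      v = tangentCoordChange I (γ t) x0 (γ t) (mfderiv 𝓘(ℝ, ℝ) I γ t (1 : ℝ)) ∧
      ‖(mfderiv 𝓘(ℝ, ℝ) I γ t (1 : ℝ) : TangentSpace I (γ t))‖ₑ =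
        ENNReal.ofReal √(gch I x0 (extChartAt I x0 (γ t)) v v) := by
  have h1 : MDifferentiableAt I 𝓘(ℝ, E) (extChartAt I x0) (γ t) := by
    apply mdifferentiableAt_extChartAt
    rwa [extChartAt_source] at ht
  have h2 : HasMFDerivAt 𝓘(ℝ, ℝ) 𝓘(ℝ, E) (fun s => extChartAt I x0 (γ s)) t
      ((mfderiv I 𝓘(ℝ, E) (extChartAt I x0) (γ t)).comp (mfderiv 𝓘(ℝ, ℝ) I γ t)) :=
    h1.hasMFDerivAt.comp t hγ.hasMFDerivAt
  rw [mfderiv_ext ht] at h2
  obtain ⟨L, hL⟩ : ∃ L : ℝ →L[ℝ] E, L = mfderiv 𝓘(ℝ, ℝ) I γ t := ⟨_, rfl⟩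
  have h3 : HasFDerivAt (fun s => extChartAt I x0 (γ s))
      ((tangentCoordChange I (γ t) x0 (γ t)).comp L) t := by
    rw [hL]
    exact hasMFDerivAt_iff_hasFDerivAt.1 h2
  obtain ⟨w, hw⟩ : ∃ w : TangentSpace I (γ t), w = mfderiv 𝓘(ℝ, ℝ) I γ t (1 : ℝ) := ⟨_, rfl⟩
  refine ⟨tangentCoordChange I (γ t) x0 (γ t) w, ?_, by rw [hw], ?_⟩
  · have h4 := h3.hasDerivAt
    have h5 : ((tangentCoordChange I (γ t) x0 (γ t)).comp L) 1 =
        tangentCoordChange I (γ t) x0 (γ t) w := by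
      rw [hw, hL]
      rfl
    rw [h5] at h4
    exact h4
  · rw [← hw]
    have h5 : gch I x0 (extChartAt I x0 (γ t)) (tangentCoordChange I (γ t) x0 (γ t) w)
        (tangentCoordChange I (γ t) x0 (γ t) w) = ‖w‖ ^ 2 := by
      rw [gch, gform_apply, (extChartAt I x0).left_inv ht]
      rw [tangentCoordChange_comp ⟨⟨mem_extChartAt_source (γ t), ht⟩, mem_extChartAt_source (γ t)⟩,
        tangentCoordChange_self (mem_extChartAt_source (γ t))]
      exact real_inner_self_eq_norm_sq (F := TangentSpace I (γ t)) w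
    rw [h5, Real.sqrt_sq (norm_nonneg w), ofReal_norm]

end

end Pool.Agent.BL.G2
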