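import Pool.Agent.Lib.MP_ccbbf6_gt.G2.D2
import Pool.Agent.Lib.MP_ccbbf6_gt.G2.Len

/-!
The distance of a Riemannian manifold is given, near the diagonal, by the local exponential map:
`dist x x' ^ 2 = D2 (φ x, φ x')`.
-/

namespace Pool.Agent.BL.G2

open Set Metric Filter Topology MeasureTheory Manifold Bundle
open scoped ContDiff ENNReal
open Pool.Agent.BL.Spray (acc acc_smul gch gform gform_apply gch_symm gch_pos contDiffOn_gch)

universe u

set_option linter.unusedSectionVars false
set_option maxSynthPendingDepth 3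

section

variable {E : Type u} [NormedAddCommGroup E] [NormedSpace ℝ E] [FiniteDimensional ℝ E]
  {H : Type*} [TopologicalSpace H] {I : ModelWithCorners ℝ E H} [I.Boundaryless]
  {M : Type*} [MetricSpace M] [ChartedSpace H M] [IsManifold I ∞ M]
  [RiemannianBundle (fun x : M => TangentSpace I x)]
  [IsContMDiffRiemannianBundle I ∞ E (fun x : M => TangentSpace I x)]

/-- the metric read in a chart is a metric in the sense of `IsMetricOn` -/
theorem isMetricOn_gch (x0 : M) : IsMetricOn (gch I x0) (extChartAt I x0).target where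
  isOpen := isOpen_extChartAt_target x0
  smooth := contDiffOn_gch x0
  symm := fun y _ u v => gch_symm x0 y u v
  pos := fun _ hy _ hu => gch_pos hy hu

variable {x0 : M} {r : ℝ} {Φ : ℝ → E × E → E × E} {ρ : ℝ} {N : Set (E × E)} {lg : E × E → E}

/-- curves in the chart give curves in the manifold -/
lemma mdiff_symm {σ : ℝ → E} {t : ℝ} (hσ : DifferentiableAt ℝ σ t)
    (ht : σ t ∈ (extChartAt I x0).target) :
    MDifferentiableAt 𝓘(ℝ, ℝ) I (fun s => (extChartAt I x0).symm (σ s)) t := by
  have h1 : MDifferentiableAt 𝓘(ℝ, E) I (extChartAt I x0).symm (σ t) :=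
    (contMDiffOn_extChartAt_symm (n := 1) x0).contMDiffAt
      ((isOpen_extChartAt_target x0).mem_nhds ht) |>.mdifferentiableAt (by simp)
  exact MDifferentiableAt.comp t h1 hσ.mdifferentiableAt

/-- speed of a curve given in the chart -/
lemma speed_symm {σ : ℝ → E} {t : ℝ} {v : E} (hσ : HasDerivAt σ v t)
    (ht : σ t ∈ (extChartAt I x0).target) :
    ‖(mfderiv 𝓘(ℝ, ℝ) I (fun s => (extChartAt I x0).symm (σ s)) t (1 : ℝ) :
      TangentSpace I ((extChartAt I x0).symm (σ t)))‖ₑ = ENNReal.ofReal √(gch I x0 (σ t) v v) := by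
  have h1 := mdiff_symm (I := I) (x0 := x0) hσ.differentiableAt ht
  obtain ⟨w, hw, -, h2⟩ := speed_eq (x0 := x0) h1 ((extChartAt I x0).map_target ht)
  have h3 : (fun s => extChartAt I x0 ((extChartAt I x0).symm (σ s))) =ᶠ[𝓝 t] σ := by
    filter_upwards [hσ.continuousAt.preimage_mem_nhds
      ((isOpen_extChartAt_target x0).mem_nhds ht)] with s hs
    exact (extChartAt I x0).right_inv hs
  have h4 := (hw.congr_of_eventuallyEq h3.symm).unique hσ
  rw [h2, h4, (extChartAt I x0).right_inv ht]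

variable [IsRiemannianManifold I M]

/-- **Upper bound** of the distance by the geodesic. -/
theorem edist_le (h : IsNormal (gch I x0) (extChartAt I x0).target (extChartAt I x0 x0) r Φ ρ N lg)
    {q : E × E} (hq : q ∈ N) :
    edist ((extChartAt I x0).symm q.1) ((extChartAt I x0).symm q.2) ≤
      ENNReal.ofReal √(D2 (gch I x0) lg q) := by
  have hG := isMetricOn_gch (I := I) x0
  obtain ⟨σ, hσ⟩ : ∃ σ : ℝ → E, σ = fun t => (Φ t (q.1, lg q)).1 := ⟨_, rfl⟩
  have hσs : ContDiff ℝ ∞ σ := by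
    rw [hσ]
    exact contDiff_fst.comp (h.flow.smooth.comp (contDiff_id.prodMk contDiff_const))
  have hI : ∀ t ∈ Icc (0 : ℝ) 1, t ∈ Ioo (-3 : ℝ) 3 := fun t ht =>
    ⟨by linarith [ht.1], by linarith [ht.2]⟩
  have hmem : ∀ t ∈ Icc (0 : ℝ) 1, σ t ∈ (extChartAt I x0).target := by
    intro t ht
    rw [hσ]
    exact h.flow.mem _ (h.mem_r hq) t (hI t ht)
  have hder : ∀ t ∈ Icc (0 : ℝ) 1, HasDerivAt σ (Φ t (q.1, lg q)).2 t := by
    intro t ht
    rw [hσ]
    exact hasDerivAt_fst' (h.flow.deriv _ (h.mem_r hq) t (hI t ht))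
  rw [IsRiemannianManifold.out (I := I)]
  have h1 : CMDiff[Icc (0 : ℝ) 1] 1 (fun s => (extChartAt I x0).symm (σ s)) :=
    (contMDiffOn_extChartAt_symm (n := 1) x0).comp
      ((hσs.of_le (by simp)).contMDiff.contMDiffOn) hmem
  have h2 := riemannianEDist_le_pathELength (I := I) h1 (x := (extChartAt I x0).symm q.1)
    (y := (extChartAt I x0).symm q.2) (by rw [hσ]; simp [h.flow.zero])
    (by rw [hσ]; simp [h.exp_lg q hq]) zero_le_one
  refine h2.trans ?_
  rw [pathELength_eq_lintegral_mfderiv_Icc]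
  calc ∫⁻ t in Icc (0 : ℝ) 1,
        ‖(mfderiv 𝓘(ℝ, ℝ) I (fun s => (extChartAt I x0).symm (σ s)) t (1 : ℝ) :
          TangentSpace I ((extChartAt I x0).symm (σ t)))‖ₑ
      = ∫⁻ _t in Icc (0 : ℝ) 1, ENNReal.ofReal √(D2 (gch I x0) lg q) := by
        refine setLIntegral_congr_fun measurableSet_Icc (fun t ht => ?_)
        have h3 := speed_symm (I := I) (x0 := x0) (hder t ht) (hmem t ht)
        refine h3.trans ?_
        have h4 := h.flow.energy hG (h.mem_r hq) (hI t ht)
        have h5 : gch I x0 (σ t) (Φ t (q.1, lg q)).2 (Φ t (q.1, lg q)).2 =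
            en (gch I x0) (Φ t (q.1, lg q)) := by
          rw [hσ]
          rfl
        rw [h5, h4]
        rfl
    _ ≤ ENNReal.ofReal √(D2 (gch I x0) lg q) := by
        rw [setLIntegral_const]
        simp

/-- **Lower bound** of the length of a curve. -/
theorem sqrt_D2_le_pathELength
    (h : IsNormal (gch I x0) (extChartAt I x0).target (extChartAt I x0 x0) r Φ ρ N lg)
    {γ : ℝ → M} (hγ : CMDiff 1 γ) {a b : ℝ} (hab : a ≤ b)
    (hs : ∀ t ∈ Icc a b, γ t ∈ (extChartAt I x0).source)
    (hN : ∀ t ∈ Icc a b, (extChartAt I x0 (γ a), extChartAt I x0 (γ t)) ∈ N) :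
    ENNReal.ofReal √(D2 (gch I x0) lg (extChartAt I x0 (γ a), extChartAt I x0 (γ b))) ≤
      pathELength I γ a b := by
  have hG := isMetricOn_gch (I := I) x0
  obtain ⟨σ, hσ⟩ : ∃ σ : ℝ → E, σ = fun t => extChartAt I x0 (γ t) := ⟨_, rfl⟩
  have hsm : ∀ t ∈ Icc a b, ContDiffAt ℝ 1 σ t := by
    intro t ht
    have h1 : ContMDiffAt I 𝓘(ℝ, E) 1 (extChartAt I x0) (γ t) := by
      refine contMDiffAt_extChartAt' ?_
      have := hs t ht
      rwa [extChartAt_source] at this
    have h2 : ContMDiffAt 𝓘(ℝ, ℝ) 𝓘(ℝ, E) 1 (fun s => extChartAt I x0 (γ s)) t :=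
      ContMDiffAt.comp t h1 hγ.contMDiffAt
    rw [hσ]
    exact contMDiffAt_iff_contDiffAt.1 h2
  have hder : ∀ t ∈ Icc a b, HasDerivAt σ (deriv σ t) t := fun t ht =>
    ((hsm t ht).differentiableAt (by simp)).hasDerivAt
  have hdc : ContinuousOn (deriv σ) (Icc a b) := by
    intro t ht
    have h1 : ContDiffAt ℝ 0 (fderiv ℝ σ) t := (hsm t ht).fderiv_right (by simp)
    have h2 : ContinuousAt (fun s => fderiv ℝ σ s 1) t := by
      exact h1.continuousAt.clm_apply continuousAt_const
    exact (h2.congr (Eventually.of_forall fun s => by simp)).continuousWithinAt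
  have hN' : ∀ t ∈ Icc a b, (σ a, σ t) ∈ N := by
    rw [hσ]
    exact hN
  have h1 := h.sqrt_D2_le hG hab hder hdc hN'
  have hnn : ∀ t, 0 ≤ √(gch I x0 (σ t) (deriv σ t) (deriv σ t)) := fun t => Real.sqrt_nonneg _
  have hcont : ContinuousOn (fun t => √(gch I x0 (σ t) (deriv σ t) (deriv σ t))) (Icc a b) := by
    have h1 : ContinuousOn σ (Icc a b) := fun t ht => (hder t ht).continuousAt.continuousWithinAt
    have h2 : ContinuousOn (fun t => gch I x0 (σ t)) (Icc a b) :=
      hG.smooth.continuousOn.comp h1 (fun t ht => h.snd_mem (hN' t ht))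
    exact ((h2.clm_apply hdc).clm_apply hdc).sqrt
  have h2 : ENNReal.ofReal (∫ t in a..b, √(gch I x0 (σ t) (deriv σ t) (deriv σ t))) =
      pathELength I γ a b := by
    rw [pathELength_eq_lintegral_mfderiv_Icc, intervalIntegral.integral_of_le hab,
      ← integral_Icc_eq_integral_Ioc, ofReal_integral_eq_lintegral_ofReal hcont.integrableOn_Icc
        (Eventually.of_forall fun t => hnn t)]
    refine setLIntegral_congr_fun measurableSet_Icc (fun t ht => ?_)
    have h3 : MDifferentiableAt 𝓘(ℝ, ℝ) I γ t := hγ.mdifferentiableAt (by simp)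
    obtain ⟨v, hv, -, h4⟩ := speed_eq (x0 := x0) h3 (hs t ht)
    refine Eq.trans ?_ h4.symm
    have h5 : deriv σ t = v := by
      rw [hσ]
      exact hv.deriv
    rw [h5, hσ]
  rw [← h2]
  refine ENNReal.ofReal_le_ofReal ?_
  rw [hσ] at h1 ⊢
  exact h1

/-- Normal coordinates of the manifold at `x0`, with the distance formula. -/
structure NormalAt (I : ModelWithCorners ℝ E H) [IsManifold I ∞ M]
    [RiemannianBundle (fun x : M => TangentSpace I x)] (x0 : M) (r : ℝ)
    (Φ : ℝ → E × E → E × E) (ρ : ℝ) (N : Set (E × E)) (lg : E × E → E) (δ : ℝ) : Prop where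
  normal : IsNormal (gch I x0) (extChartAt I x0).target (extChartAt I x0 x0) r Φ ρ N lg
  δ_pos : 0 < δ
  src : ∀ x ∈ ball x0 δ, x ∈ (extChartAt I x0).source
  pair : ∀ x ∈ ball x0 δ, ∀ x' ∈ ball x0 δ, (extChartAt I x0 x, extChartAt I x0 x') ∈ N
  dist_eq : ∀ x ∈ ball x0 δ, ∀ x' ∈ ball x0 δ,
    dist x x' = √(D2 (gch I x0) lg (extChartAt I x0 x, extChartAt I x0 x'))
  dist_le : ∀ q ∈ N, dist ((extChartAt I x0).symm q.1) ((extChartAt I x0).symm q.2) ≤
    √(D2 (gch I x0) lg q)

variable (I) in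
/-- **Local structure of the distance**: existence of normal coordinates with the distance formula. -/
theorem exists_normalAt (x0 : M) : ∃ r Φ, ∃ ρ0 > 0, ∀ ρ, 0 < ρ → ρ ≤ ρ0 →
    ∃ N lg δ, NormalAt I x0 r Φ ρ N lg δ := by
  have hG := isMetricOn_gch (I := I) x0
  obtain ⟨r, Φ, hΦ⟩ := exists_geoFlow hG (mem_extChartAt_target (I := I) x0)
  obtain ⟨ρ0, hρ0, H⟩ := hΦ.exists_normal hG
  refine ⟨r, Φ, ρ0, hρ0, fun ρ hρ hρρ => ?_⟩
  obtain ⟨N, lg, h⟩ := H ρ hρ hρρ
  -- a ball where all the pairs are in `N`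
  have h1 : ∀ᶠ p : M × M in 𝓝 (x0, x0), (p.1 ∈ (extChartAt I x0).source) ∧
      (extChartAt I x0 p.1, extChartAt I x0 p.2) ∈ N := by
    have h2 : ∀ᶠ p : M × M in 𝓝 (x0, x0), p.1 ∈ (extChartAt I x0).source :=
      (continuous_fst.tendsto (x0, x0)).eventually (extChartAt_source_mem_nhds x0)
    have h3 : ContinuousAt (fun p : M × M => (extChartAt I x0 p.1, extChartAt I x0 p.2)) (x0, x0) := by
      have ha : ContinuousAt (fun p : M × M => extChartAt I x0 p.1) (x0, x0) :=
        ContinuousAt.comp (g := extChartAt I x0) (continuousAt_extChartAt x0) continuousAt_fst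
      have hb : ContinuousAt (fun p : M × M => extChartAt I x0 p.2) (x0, x0) :=
        ContinuousAt.comp (g := extChartAt I x0) (continuousAt_extChartAt x0) continuousAt_snd
      exact ha.prodMk hb
    exact h2.and (h3.eventually (h.open_N.mem_nhds h.mem_N))
  obtain ⟨R, hR, HR⟩ := Metric.eventually_nhds_iff_ball.1 h1
  have HR' : ∀ x ∈ ball x0 R, ∀ x' ∈ ball x0 R, (x ∈ (extChartAt I x0).source) ∧
      (extChartAt I x0 x, extChartAt I x0 x') ∈ N := fun x hx x' hx' => by
    refine HR (x, x') ?_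
    rw [← ball_prod_same]
    exact ⟨hx, hx'⟩
  have hsub : ball x0 (R / 4) ⊆ ball x0 R := ball_subset_ball (by linarith)
  refine ⟨N, lg, R / 4, h, by positivity, fun x hx => (HR' x (hsub hx) x (hsub hx)).1,
    fun x hx x' hx' => (HR' x (hsub hx) x' (hsub hx')).2, fun x hx x' hx' => ?_, fun q hq => ?_⟩
  · have hq := (HR' x (hsub hx) x' (hsub hx')).2
    have hxs := (HR' x (hsub hx) x' (hsub hx')).1
    have hxs' := (HR' x' (hsub hx') x (hsub hx)).1
    have hup := edist_le h hq
    simp only [(extChartAt I x0).left_inv hxs, (extChartAt I x0).left_inv hxs'] at hup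
    have hlow : ENNReal.ofReal √(D2 (gch I x0) lg (extChartAt I x0 x, extChartAt I x0 x')) ≤
        edist x x' := by
      have hxx : edist x x' < ENNReal.ofReal (R / 2) := by
        rw [edist_dist]
        refine (ENNReal.ofReal_lt_ofReal_iff (by positivity)).2 ?_
        have := dist_triangle_right x x' x0
        rw [mem_ball] at hx hx'
        linarith
      refine le_of_forall_gt (fun c hc => ?_)
      obtain ⟨c', hc1, hc2⟩ := exists_between (lt_min hc hxx)
      have hc3 : c' < ENNReal.ofReal (R / 2) := hc2.trans_le (min_le_right _ _)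
      rw [IsRiemannianManifold.out (I := I)] at hc1
      obtain ⟨γ, hγ0, hγ1, hγs, hγl, -⟩ :=
        exists_lt_locally_constant_of_riemannianEDist_lt hc1 zero_lt_one
      have hball : ∀ t ∈ Icc (0 : ℝ) 1, γ t ∈ ball x0 R := by
        intro t ht
        have h2 : edist (γ 0) (γ t) ≤ pathELength I γ 0 t := by
          rw [IsRiemannianManifold.out (I := I)]
          exact riemannianEDist_le_pathELength hγs.contMDiffOn rfl rfl ht.1
        have h3 : pathELength I γ 0 t ≤ pathELength I γ 0 1 := pathELength_mono le_rfl ht.2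
        have h4 : edist (γ 0) (γ t) < ENNReal.ofReal (R / 2) := (h2.trans h3).trans_lt (hγl.trans hc3)
        rw [edist_dist, ENNReal.ofReal_lt_ofReal_iff (by positivity), hγ0] at h4
        rw [mem_ball] at hx ⊢
        have := dist_triangle (γ t) x x0
        rw [dist_comm (γ t) x] at this
        linarith
      have h5 := sqrt_D2_le_pathELength h hγs zero_le_one
        (fun t ht => (HR' _ (hball t ht) x (hsub hx)).1)
        (fun t ht => (HR' _ (hball 0 (by simp)) _ (hball t ht)).2)
      rw [hγ0, hγ1] at h5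
      exact (h5.trans_lt hγl).trans_le (hc2.le.trans (min_le_left _ _))
    have heq := le_antisymm hup hlow
    rw [edist_dist] at heq
    exact (ENNReal.ofReal_eq_ofReal_iff dist_nonneg (Real.sqrt_nonneg _)).1 heq
  · have h2 := edist_le h hq
    rw [edist_dist] at h2
    exact (ENNReal.ofReal_le_ofReal_iff (Real.sqrt_nonneg _)).1 h2

end

end Pool.Agent.BL.G2
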