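import Pool.Agent.Lib.MP_ccbbf6_gt.G2.Gauss

/-!
The local exponential map, its inverse and the square of the distance function.
-/

namespace Pool.Agent.BL.G2

open Set Metric Filter Topology
open scoped ContDiff
open Pool.Agent.BL.Spray (acc acc_smul)

universe u

set_option linter.unusedSectionVars false
set_option maxSynthPendingDepth 3

variable {E : Type u} [NormedAddCommGroup E] [NormedSpace ℝ E]

/-- Normal coordinates near `y0`: the map `(y, v) ↦ (y, exp_y v)` is a diffeomorphism from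
`ball (y0, 0) ρ` onto the open set `N`, with inverse `q ↦ (q.1, lg q)`. -/
structure IsNormal (G : E → E →L[ℝ] E →L[ℝ] ℝ) (U : Set E) (y0 : E) (r : ℝ)
    (Φ : ℝ → E × E → E × E) (ρ : ℝ) (N : Set (E × E)) (lg : E × E → E) : Prop where
  flow : IsGeoFlow G U y0 r Φ
  ρ_pos : 0 < ρ
  ρ_le : ρ ≤ r
  open_N : IsOpen N
  mem_N : (y0, y0) ∈ N
  lg_smooth : ContDiffOn ℝ ∞ lg N
  lg_mem : ∀ q ∈ N, (q.1, lg q) ∈ ball (y0, (0 : E)) ρ
  exp_lg : ∀ q ∈ N, (Φ 1 (q.1, lg q)).1 = q.2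
  exp_mem : ∀ x ∈ ball (y0, (0 : E)) ρ, (x.1, (Φ 1 x).1) ∈ N
  lg_exp : ∀ x ∈ ball (y0, (0 : E)) ρ, lg (x.1, (Φ 1 x).1) = x.2

/-- the square of the distance, in coordinates -/
noncomputable def D2 (G : E → E →L[ℝ] E →L[ℝ] ℝ) (lg : E × E → E) (q : E × E) : ℝ :=
  en G (q.1, lg q)

/-- the terminal velocity of the geodesic from `q.1` to `q.2` -/
def v1 (Φ : ℝ → E × E → E × E) (lg : E × E → E) (q : E × E) : E := (Φ 1 (q.1, lg q)).2

variable [FiniteDimensional ℝ E] {G : E → E →L[ℝ] E →L[ℝ] ℝ} {U : Set E}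
variable {y0 : E} {r : ℝ} {Φ : ℝ → E × E → E × E}

namespace IsGeoFlow

lemma const (hG : IsMetricOn G U) (h : IsGeoFlow G U y0 r Φ) {y : E}
    (hy : y ∈ ball y0 r) {t : ℝ} (ht : t ∈ Ioo (-3 : ℝ) 3) : Φ t (y, 0) = (y, 0) := by
  have hx : (y, (0 : E)) ∈ ball (y0, (0 : E)) r := by
    rw [← ball_prod_same]
    exact ⟨hy, by simpa using h.r_pos⟩
  have h1 := h.homog hG hx (c := 0) (by simp) ht
  simpa [h.zero] using h1

/-- differential of the exponential map at the zero section -/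
theorem fderiv_exp_zero (hG : IsMetricOn G U) (h : IsGeoFlow G U y0 r Φ) {y : E}
    (hy : y ∈ ball y0 r) (k : E × E) : (fderiv ℝ (Φ 1) (y, 0) k).1 = k.1 + k.2 := by
  have hx : (y, (0 : E)) ∈ ball (y0, (0 : E)) r := by
    rw [← ball_prod_same]
    exact ⟨hy, by simpa using h.r_pos⟩
  have hd := h.hasFDerivAt_right 1 (y, (0 : E))
  have h1 : (fderiv ℝ (Φ 1) (y, 0) (k.1, 0)).1 = k.1 := by
    have hl : HasDerivAt (fun s : ℝ => ((y + s • k.1, (0 : E)) : E × E)) (k.1, 0) 0 := by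
      have h2 : HasDerivAt (fun s : ℝ => y + s • k.1) k.1 0 := by
        simpa using ((hasDerivAt_id (0 : ℝ)).smul_const k.1).const_add y
      exact h2.prodMk (hasDerivAt_const 0 (0 : E))
    have hl0 : (fun s : ℝ => ((y + s • k.1, (0 : E)) : E × E)) 0 = (y, 0) := by simp
    rw [← hl0] at hd
    have h3 := hasDerivAt_fst' (hd.comp_hasDerivAt (0 : ℝ) hl)
    have h4 : (fun s : ℝ => ((Φ 1 ∘ fun s : ℝ => ((y + s • k.1, (0 : E)) : E × E)) s).1) =ᶠ[𝓝 0]
        fun s => y + s • k.1 := by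
      have hc : ContinuousAt (fun s : ℝ => y + s • k.1) 0 := by fun_prop
      have h5 : ∀ᶠ s in 𝓝 (0 : ℝ), y + s • k.1 ∈ ball y0 r :=
        hc.eventually (isOpen_ball.mem_nhds (by simpa using hy))
      filter_upwards [h5] with s hs
      simp only [Function.comp]
      rw [h.const hG hs (by norm_num)]
    have h5 : HasDerivAt (fun s : ℝ => y + s • k.1) k.1 0 := by
      simpa using ((hasDerivAt_id (0 : ℝ)).smul_const k.1).const_add y
    have h6 := h3.unique (h5.congr_of_eventuallyEq h4)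
    rw [hl0] at h6
    exact h6
  have h2 : (fderiv ℝ (Φ 1) (y, 0) (0, k.2)).1 = k.2 := by
    -- choose a small multiple
    obtain ⟨c, hc0, hc⟩ : ∃ c : ℝ, 0 < c ∧ (y, c • k.2) ∈ ball (y0, (0 : E)) r := by
      have hcont : ContinuousAt (fun c : ℝ => ((y, c • k.2) : E × E)) 0 := by fun_prop
      have h3 : ∀ᶠ c in 𝓝 (0 : ℝ), (y, c • k.2) ∈ ball (y0, (0 : E)) r :=
        hcont.eventually (isOpen_ball.mem_nhds (by simpa using hx))
      obtain ⟨δ, hδ, H⟩ := Metric.eventually_nhds_iff.1 h3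
      exact ⟨δ / 2, by positivity, H (by simp [abs_of_pos hδ]; linarith)⟩
    have hl : HasDerivAt (fun s : ℝ => ((y, s • (c • k.2)) : E × E)) (0, c • k.2) 0 := by
      have h2 : HasDerivAt (fun s : ℝ => s • (c • k.2)) (c • k.2) 0 := by
        simpa using ((hasDerivAt_id (0 : ℝ)).smul_const (c • k.2))
      exact (hasDerivAt_const 0 y).prodMk h2
    have hl0 : (fun s : ℝ => ((y, s • (c • k.2)) : E × E)) 0 = (y, 0) := by simp
    rw [← hl0] at hd
    have h3 := hasDerivAt_fst' (hd.comp_hasDerivAt (0 : ℝ) hl)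
    have h4 : (fun s : ℝ => ((Φ 1 ∘ fun s : ℝ => ((y, s • (c • k.2)) : E × E)) s).1) =ᶠ[𝓝 0]
        fun s => (Φ s (y, c • k.2)).1 := by
      filter_upwards [Ioo_mem_nhds (show (-1 : ℝ) < 0 by norm_num) (show (0 : ℝ) < 1 by norm_num)]
        with s hs
      simp only [Function.comp]
      rw [h.homog hG hc (abs_le.2 ⟨hs.1.le, hs.2.le⟩) (by norm_num)]
      simp
    have h5 : HasDerivAt (fun s => (Φ s (y, c • k.2)).1) (c • k.2) 0 := by
      have h6 := hasDerivAt_fst' (h.deriv _ hc 0 (by simp))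
      rw [h.zero] at h6
      exact h6
    have h6 := h3.unique (h5.congr_of_eventuallyEq h4)
    rw [hl0] at h6
    have h7 : fderiv ℝ (Φ 1) (y, 0) (0, c • k.2) = c • fderiv ℝ (Φ 1) (y, 0) (0, k.2) := by
      rw [← map_smul]
      simp
    rw [h7] at h6
    have h8 : c • (fderiv ℝ (Φ 1) (y, 0) (0, k.2)).1 = c • k.2 := h6
    exact smul_right_injective E hc0.ne' h8
  have h3 : k = (k.1, 0) + (0, k.2) := by simp
  conv_lhs => rw [h3, map_add]
  rw [Prod.fst_add, h1, h2]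

/-- existence of normal coordinates of all small sizes -/
theorem exists_normal (hG : IsMetricOn G U) (h : IsGeoFlow G U y0 r Φ) :
    ∃ ρ0 > 0, ∀ ρ, 0 < ρ → ρ ≤ ρ0 → ∃ N lg, IsNormal G U y0 r Φ ρ N lg := by
  have hcE : CompleteSpace E := FiniteDimensional.complete ℝ E
  obtain ⟨ψ, hψ⟩ : ∃ ψ : E × E → E × E, ψ = fun x => (x.1, (Φ 1 x).1) := ⟨_, rfl⟩
  have hψs : ContDiff ℝ ∞ ψ := by
    rw [hψ]
    exact contDiff_fst.prodMk (contDiff_fst.comp (h.smooth_right 1))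
  have hψd : ∀ x k, fderiv ℝ ψ x k = (k.1, (fderiv ℝ (Φ 1) x k).1) := by
    intro x k
    have h1 : HasFDerivAt ψ ((ContinuousLinearMap.fst ℝ E E).prod
        ((ContinuousLinearMap.fst ℝ E E).comp (fderiv ℝ (Φ 1) x))) x := by
      rw [hψ]
      exact hasFDerivAt_fst.prodMk ((ContinuousLinearMap.fst ℝ E E).hasFDerivAt.comp x
        (h.hasFDerivAt_right 1 x))
    rw [h1.fderiv]
    rfl
  have hy0 : y0 ∈ ball y0 r := mem_ball_self h.r_pos
  obtain ⟨e, he⟩ : ∃ e : (E × E) ≃L[ℝ] (E × E), (e : E × E →L[ℝ] E × E) = fderiv ℝ ψ (y0, 0) := by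
    refine ⟨(ContinuousLinearEquiv.refl ℝ E).skewProd (ContinuousLinearEquiv.refl ℝ E)
      (ContinuousLinearMap.id ℝ E), ?_⟩
    refine ContinuousLinearMap.ext fun k => ?_
    rw [hψd, h.fderiv_exp_zero hG hy0]
    simp [ContinuousLinearEquiv.skewProd_apply, add_comm]
  have hd0 : HasFDerivAt ψ (e : E × E →L[ℝ] E × E) (y0, 0) := by
    rw [he]
    exact (hψs.differentiable (by simp) _).hasFDerivAt
  obtain ⟨P, hP, hPs, hPt⟩ : ∃ P : OpenPartialHomeomorph (E × E) (E × E), (P : E × E → E × E) = ψ ∧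
      (y0, (0 : E)) ∈ P.source ∧ True :=
    ⟨ContDiffAt.toOpenPartialHomeomorph ψ (hψs.contDiffAt (x := (y0, (0 : E)))) hd0 (by simp),
      ContDiffAt.toOpenPartialHomeomorph_coe _ _ _, ContDiffAt.mem_toOpenPartialHomeomorph_source _ _ _,
      trivial⟩
  have hev : ∀ᶠ x in 𝓝 (y0, (0 : E)), x ∈ P.source ∧
      fderiv ℝ ψ x ∈ range ((↑) : ((E × E) ≃L[ℝ] (E × E)) → (E × E →L[ℝ] E × E)) := by
    have h1 : ∀ᶠ x in 𝓝 (y0, (0 : E)), x ∈ P.source := P.open_source.mem_nhds hPs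
    have h2 : ContinuousAt (fderiv ℝ ψ) (y0, (0 : E)) :=
      ((hψs.fderiv_right (m := ∞) (by simp)).continuous).continuousAt
    have h3 : range ((↑) : ((E × E) ≃L[ℝ] (E × E)) → (E × E →L[ℝ] E × E)) ∈
        𝓝 (fderiv ℝ ψ (y0, (0 : E))) := by
      rw [← he]
      exact ContinuousLinearEquiv.nhds e
    exact h1.and (h2.eventually h3)
  obtain ⟨δ, hδ, H⟩ := Metric.eventually_nhds_iff_ball.1 hev
  refine ⟨min δ r, lt_min hδ h.r_pos, fun ρ hρ hρ' => ?_⟩
  have hsub : ball (y0, (0 : E)) ρ ⊆ P.source := fun x hx =>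
    (H x (ball_subset_ball (hρ'.trans (min_le_left _ _)) hx)).1
  have hPapp : ∀ x, P x = (x.1, (Φ 1 x).1) := by
    intro x
    rw [hP, hψ]
  refine ⟨P '' ball (y0, (0 : E)) ρ, fun q => (P.symm q).2, ⟨h, hρ, hρ'.trans (min_le_right _ _),
    ?_, ?_, ?_, ?_, ?_, ?_, ?_⟩⟩
  · exact P.isOpen_image_of_subset_source isOpen_ball hsub
  · refine ⟨(y0, 0), mem_ball_self hρ, ?_⟩
    rw [hPapp, h.const hG hy0 (by norm_num)]
  · rintro q ⟨x, hx, rfl⟩
    have h1 := (H x (ball_subset_ball (hρ'.trans (min_le_left _ _)) hx)).2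
    obtain ⟨e', he'⟩ := h1
    have h2 : HasFDerivAt P (e' : E × E →L[ℝ] E × E) (P.symm (P x)) := by
      rw [P.left_inv (hsub hx), he', hP]
      exact (hψs.differentiable (by simp) _).hasFDerivAt
    have h3 : ContDiffAt ℝ ∞ P (P.symm (P x)) := by
      rw [hP]
      exact hψs.contDiffAt
    have h4 : ContDiffAt ℝ ∞ P.symm (P x) := P.contDiffAt_symm (P.map_source (hsub hx)) h2 h3
    exact (contDiff_snd.contDiffAt.comp _ h4).contDiffWithinAt
  · rintro q ⟨x, hx, rfl⟩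
    have h1 : ((P x).1, (P.symm (P x)).2) = x := by
      rw [P.left_inv (hsub hx), hPapp]
    simp only [h1]
    exact hx
  · rintro q ⟨x, hx, rfl⟩
    have h1 : ((P x).1, (P.symm (P x)).2) = x := by
      rw [P.left_inv (hsub hx), hPapp]
    simp only [h1]
    rw [hPapp]
  · intro x hx
    exact ⟨x, hx, hPapp x⟩
  · intro x hx
    have h1 : (x.1, (Φ 1 x).1) = P x := (hPapp x).symm
    simp only [h1]
    rw [P.left_inv (hsub hx)]

end IsGeoFlow

end Pool.Agent.BL.G2
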