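import Pool.Agent.Lib.MP_ccbbf6_gt.Flow.Open
import Pool.Agent.Lib.MP_ccbbf6_gt.G2.Acc

/-!
Local geodesic flow, normalised so that all geodesics with small initial velocity exist for `|t| < 3`.
-/

namespace Pool.Agent.BL.G2

open Set Metric Filter Topology
open scoped ContDiff
open Pool.Agent.BL.Spray (acc acc_smul)

universe u

set_option linter.unusedSectionVars false
set_option maxSynthPendingDepth 3

variable {E : Type u} [NormedAddCommGroup E] [NormedSpace ℝ E]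

/-- A (normalised) local geodesic flow near `(y0, 0)`. -/
structure IsGeoFlow (G : E → E →L[ℝ] E →L[ℝ] ℝ) (U : Set E) (y0 : E) (r : ℝ)
    (Φ : ℝ → E × E → E × E) : Prop where
  r_pos : 0 < r
  smooth : ContDiff ℝ ∞ (fun q : ℝ × (E × E) => Φ q.1 q.2)
  zero : ∀ x, Φ 0 x = x
  add : ∀ s t x, Φ (s + t) x = Φ s (Φ t x)
  mem : ∀ x ∈ ball (y0, (0 : E)) r, ∀ t ∈ Ioo (-3 : ℝ) 3, (Φ t x).1 ∈ U
  deriv : ∀ x ∈ ball (y0, (0 : E)) r, ∀ t ∈ Ioo (-3 : ℝ) 3,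
    HasDerivAt (fun s => Φ s x) (geoV G (Φ t x)) t

variable [FiniteDimensional ℝ E] {G : E → E →L[ℝ] E →L[ℝ] ℝ} {U : Set E}

theorem exists_geoFlow (hG : IsMetricOn G U) {y0 : E} (hy0 : y0 ∈ U) :
    ∃ r, ∃ Φ : ℝ → E × E → E × E, IsGeoFlow G U y0 r Φ := by
  have hU : (U ×ˢ (univ : Set E)) ∈ 𝓝 (y0, (0 : E)) := hG.isOpen_prod.mem_nhds ⟨hy0, mem_univ _⟩
  obtain ⟨ε, hε, Ψ, hΨ, hΨ0, hadd, -, hd⟩ :=
    Pool.Agent.BL.Flow.exists_localFlow (n := ⊤) le_top hU hG.contDiffOn_geoV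
  rw [hG.isOpen_prod.interior_eq] at hd
  obtain ⟨T, hT, hT3⟩ : ∃ T : ℝ, 0 < T ∧ T * 3 = ε := ⟨ε / 3, by positivity, by ring⟩
  have hTne : T ≠ 0 := hT.ne'
  have hsc : ∀ x ∈ ball (y0, (0 : E)) (min ε (T * ε)), (x.1, T⁻¹ • x.2) ∈ ball (y0, (0 : E)) ε := by
    rintro ⟨y, v⟩ hx
    rw [← ball_prod_same] at hx ⊢
    refine ⟨ball_subset_ball (min_le_left _ _) hx.1, ?_⟩
    have h1 : ‖v‖ < T * ε := by
      have := ball_subset_ball (min_le_right _ _) hx.2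
      simpa using this
    simp only [mem_ball_zero_iff, norm_smul, norm_inv, Real.norm_eq_abs, abs_of_pos hT]
    rwa [inv_mul_lt_iff₀ hT]
  have hst : ∀ t ∈ Ioo (-3 : ℝ) 3, T * t ∈ Ioo (-ε) ε := by
    intro t ht
    constructor
    · rw [← hT3]; nlinarith [ht.1]
    · rw [← hT3]; nlinarith [ht.2]
  refine ⟨min ε (T * ε), fun t x => ((Ψ (T * t) (x.1, T⁻¹ • x.2)).1,
    T • (Ψ (T * t) (x.1, T⁻¹ • x.2)).2), ⟨lt_min hε (by positivity), ?_, ?_, ?_, ?_, ?_⟩⟩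
  · have h1 : ContDiff ℝ ∞ (fun q : ℝ × (E × E) => Ψ (T * q.1) (q.2.1, T⁻¹ • q.2.2)) := by
      have h2 : ContDiff ℝ ∞ (fun q : ℝ × (E × E) => ((T * q.1, (q.2.1, T⁻¹ • q.2.2)) : ℝ × (E × E))) := by
        fun_prop
      exact hΨ.comp h2
    exact (contDiff_fst.comp h1).prodMk ((contDiff_snd.comp h1).const_smul T)
  · rintro ⟨y, v⟩
    simp [hΨ0, hTne]
  · intro s t x
    simp only [mul_add, hadd, smul_smul, inv_mul_cancel₀ hTne, one_smul]
  · intro x hx t ht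
    exact (hd _ (hsc x hx) _ (hst t ht)).1.1
  · intro x hx t ht
    have h1 := (hd _ (hsc x hx) _ (hst t ht)).2
    have h2 : HasDerivAt (fun s : ℝ => T * s) T t := by
      simpa using (hasDerivAt_id t).const_mul T
    have h3 := h1.scomp t h2
    have h4 : HasDerivAt (fun s => (Ψ (T * s) (x.1, T⁻¹ • x.2)).1)
        (T • (geoV G (Ψ (T * t) (x.1, T⁻¹ • x.2))).1) t :=
      hasDerivAt_fst' h3
    have h5 : HasDerivAt (fun s => (Ψ (T * s) (x.1, T⁻¹ • x.2)).2)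
        (T • (geoV G (Ψ (T * t) (x.1, T⁻¹ • x.2))).2) t :=
      hasDerivAt_snd' h3
    have h6 := h4.prodMk (h5.const_smul T)
    refine h6.congr_deriv ?_
    simp only [geoV, acc_smul, smul_smul, pow_two]

namespace IsGeoFlow

variable {y0 : E} {r : ℝ} {Φ : ℝ → E × E → E × E}

theorem smooth_right (h : IsGeoFlow G U y0 r Φ) (t : ℝ) : ContDiff ℝ ∞ (Φ t) :=
  h.smooth.comp (contDiff_const.prodMk contDiff_id)

/-- uniqueness of geodesics -/
theorem unique (hG : IsMetricOn G U) (h : IsGeoFlow G U y0 r Φ) {x : E × E}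
    (hx : x ∈ ball (y0, (0 : E)) r) {a b : ℝ} (ha : -3 ≤ a) (hb : b ≤ 3) (h0 : (0 : ℝ) ∈ Ioo a b)
    {c : ℝ → E × E} (hc : ∀ t ∈ Ioo a b, HasDerivAt c (geoV G (c t)) t) (hc0 : c 0 = x) :
    EqOn c (fun t => Φ t x) (Ioo a b) := by
  refine Pool.Agent.BL.Flow.sol_unique_on (V := geoV G) h0 (fun t ht => ?_) hc (fun t ht => ?_)
    (by rw [hc0, h.zero])
  · have ht' : t ∈ Ioo (-3 : ℝ) 3 := ⟨lt_of_le_of_lt ha ht.1, lt_of_lt_of_le ht.2 hb⟩
    have := hG.contDiffOn_geoV.contDiffAt (hG.isOpen_prod.mem_nhds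
      (show Φ t x ∈ U ×ˢ (univ : Set E) from ⟨h.mem x hx t ht', mem_univ _⟩))
    exact this.of_le (by simp)
  · have ht' : t ∈ Ioo (-3 : ℝ) 3 := ⟨lt_of_le_of_lt ha ht.1, lt_of_lt_of_le ht.2 hb⟩
    exact h.deriv x hx t ht'

lemma smul_mem {c : ℝ} (hc : |c| ≤ 1) {y v : E} (hx : (y, v) ∈ ball (y0, (0 : E)) r) :
    (y, c • v) ∈ ball (y0, (0 : E)) r := by
  rw [← ball_prod_same] at hx ⊢
  refine ⟨hx.1, ?_⟩
  have h1 : ‖v‖ < r := by simpa using hx.2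
  simp only [mem_ball_zero_iff, norm_smul, Real.norm_eq_abs]
  calc |c| * ‖v‖ ≤ 1 * ‖v‖ := by gcongr
    _ < r := by rwa [one_mul]

/-- homogeneity of the geodesic flow -/
theorem homog (hG : IsMetricOn G U) (h : IsGeoFlow G U y0 r Φ) {y v : E}
    (hx : (y, v) ∈ ball (y0, (0 : E)) r) {c : ℝ} (hc : |c| ≤ 1) {t : ℝ} (ht : t ∈ Ioo (-3 : ℝ) 3) :
    Φ t (y, c • v) = ((Φ (c * t) (y, v)).1, c • (Φ (c * t) (y, v)).2) := by
  have hct : ∀ t ∈ Ioo (-3 : ℝ) 3, c * t ∈ Ioo (-3 : ℝ) 3 := by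
    intro t ht
    have h1 : |c * t| < 3 := by
      rw [abs_mul]
      calc |c| * |t| ≤ 1 * |t| := by gcongr
        _ < 3 := by rw [one_mul, abs_lt]; exact ht
    exact abs_lt.1 h1
  have h2 : ∀ t ∈ Ioo (-3 : ℝ) 3, HasDerivAt (fun s => ((Φ (c * s) (y, v)).1, c • (Φ (c * s) (y, v)).2))
      (geoV G ((Φ (c * t) (y, v)).1, c • (Φ (c * t) (y, v)).2)) t := by
    intro t ht
    have h1 := h.deriv _ hx _ (hct t ht)
    have h2 : HasDerivAt (fun s : ℝ => c * s) c t := by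
      simpa using (hasDerivAt_id t).const_mul c
    have h3 := h1.scomp t h2
    have h4 : HasDerivAt (fun s => (Φ (c * s) (y, v)).1)
        (c • (geoV G (Φ (c * t) (y, v))).1) t := hasDerivAt_fst' h3
    have h5 : HasDerivAt (fun s => (Φ (c * s) (y, v)).2)
        (c • (geoV G (Φ (c * t) (y, v))).2) t := hasDerivAt_snd' h3
    have h6 := h4.prodMk (h5.const_smul c)
    refine h6.congr_deriv ?_
    simp only [geoV, acc_smul, smul_smul, pow_two]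
  have h3 := h.unique hG (smul_mem hc hx) (a := -3) (b := 3) le_rfl le_rfl (by simp) h2
    (by simp [h.zero])
  exact (h3 ht).symm

/-- conservation of energy -/
theorem energy (hG : IsMetricOn G U) (h : IsGeoFlow G U y0 r Φ) {x : E × E}
    (hx : x ∈ ball (y0, (0 : E)) r) {t : ℝ} (ht : t ∈ Ioo (-3 : ℝ) 3) :
    en G (Φ t x) = en G x := by
  have h1 : ∀ t ∈ Ioo (-3 : ℝ) 3, HasDerivAt (fun s => en G (Φ s x)) 0 t := by
    intro t ht
    have hU := h.mem x hx t ht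
    have hd := h.deriv x hx t ht
    have hd1 : HasDerivAt (fun s => (Φ s x).1) (Φ t x).2 t := hasDerivAt_fst' hd
    have hd2 : HasDerivAt (fun s => (Φ s x).2) (acc G (Φ t x).1 (Φ t x).2) t :=
      hasDerivAt_snd' hd
    have hg : HasDerivAt (fun s => G (Φ s x).1) (fderiv ℝ G (Φ t x).1 (Φ t x).2) t :=
      (hG.differentiableAt hU).hasFDerivAt.comp_hasDerivAt t hd1
    have h2 := (hg.clm_apply hd2).clm_apply hd2
    refine h2.congr_deriv ?_
    simp only [add_apply]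
    rw [hG.symm _ hU (Φ t x).2 (acc G (Φ t x).1 (Φ t x).2), hG.apply_acc hU]
    ring
  have h2 : ∀ t ∈ Ioo (-3 : ℝ) 3, en G (Φ t x) = en G (Φ 0 x) := by
    intro t ht
    exact (isOpen_Ioo.is_const_of_deriv_eq_zero isPreconnected_Ioo
      (fun s hs => (h1 s hs).differentiableAt.differentiableWithinAt)
      (fun s hs => (h1 s hs).deriv) ht (by simp : (0 : ℝ) ∈ Ioo (-3 : ℝ) 3))
  rw [h2 t ht, h.zero]

end IsGeoFlow

end Pool.Agent.BL.G2
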