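import Pool.Agent.Lib.MP_ccbbf6_gt.G2.Flow

/-!
Linearised geodesic flow and the Gauss lemma.
-/

namespace Pool.Agent.BL.G2

open Set Metric Filter Topology
open scoped ContDiff
open Pool.Agent.BL.Spray (acc acc_smul)

universe u

set_option linter.unusedSectionVars false
set_option maxSynthPendingDepth 3

variable {E : Type u} [NormedAddCommGroup E] [NormedSpace ℝ E]
variable [FiniteDimensional ℝ E] {G : E → E →L[ℝ] E →L[ℝ] ℝ} {U : Set E}

/-- derivative of the energy -/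
lemma IsMetricOn.fderiv_en (hG : IsMetricOn G U) {z : E × E} (hz : z.1 ∈ U) (k : E × E) :
    fderiv ℝ (en G) z k = fderiv ℝ G z.1 k.1 z.2 z.2 + 2 * G z.1 z.2 k.2 := by
  have h1 : HasFDerivAt (fun z : E × E => G z.1) ((fderiv ℝ G z.1).comp
      (ContinuousLinearMap.fst ℝ E E)) z :=
    (hG.differentiableAt hz).hasFDerivAt.comp z hasFDerivAt_fst
  have h2 : HasFDerivAt (en G) _ z :=
    (h1.clm_apply (hasFDerivAt_snd (𝕜 := ℝ) (p := z))).clm_apply (hasFDerivAt_snd (𝕜 := ℝ) (p := z))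
  rw [h2.fderiv]
  simp only [add_apply, ContinuousLinearMap.comp_apply, ContinuousLinearMap.flip_apply,
    ContinuousLinearMap.coe_snd', ContinuousLinearMap.coe_fst']
  rw [hG.symm _ hz k.2 z.2]
  ring

lemma IsMetricOn.differentiableAt_geoV (hG : IsMetricOn G U) {z : E × E} (hz : z.1 ∈ U) :
    DifferentiableAt ℝ (geoV G) z :=
  (hG.contDiffOn_geoV.contDiffAt (hG.isOpen_prod.mem_nhds ⟨hz, mem_univ _⟩)).differentiableAt
    (by simp)

lemma IsMetricOn.differentiableAt_en (hG : IsMetricOn G U) {z : E × E} (hz : z.1 ∈ U) :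
    DifferentiableAt ℝ (en G) z :=
  (hG.contDiffOn_en.contDiffAt (hG.isOpen_prod.mem_nhds ⟨hz, mem_univ _⟩)).differentiableAt
    (by simp)

lemma IsMetricOn.fderiv_geoV_fst (hG : IsMetricOn G U) {z : E × E} (hz : z.1 ∈ U) (k : E × E) :
    (fderiv ℝ (geoV G) z k).1 = k.2 := by
  have h1 := (hG.differentiableAt_geoV hz).hasFDerivAt
  have h2 : HasFDerivAt (fun x => (geoV G x).1) ((ContinuousLinearMap.fst ℝ E E).comp
      (fderiv ℝ (geoV G) z)) z := (ContinuousLinearMap.fst ℝ E E).hasFDerivAt.comp z h1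
  have h3 : HasFDerivAt (fun x : E × E => (geoV G x).1) (ContinuousLinearMap.snd ℝ E E) z :=
    (ContinuousLinearMap.snd ℝ E E).hasFDerivAt
  have h4 := congrArg (fun L : E × E →L[ℝ] E => L k) (h2.unique h3)
  simpa using h4

namespace IsGeoFlow

variable {y0 : E} {r : ℝ} {Φ : ℝ → E × E → E × E}

lemma hasFDerivAt_right (h : IsGeoFlow G U y0 r Φ) (t : ℝ) (x : E × E) :
    HasFDerivAt (Φ t) (fderiv ℝ (Φ t) x) x :=
  ((h.smooth_right t).differentiable (by simp) x).hasFDerivAt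

lemma fderiv_right_eq (h : IsGeoFlow G U y0 r Φ) (t : ℝ) (x k : E × E) :
    fderiv ℝ (Φ t) x k = fderiv ℝ (fun q : ℝ × (E × E) => Φ q.1 q.2) (t, x) (0, k) := by
  have h1 : HasFDerivAt (fun q : ℝ × (E × E) => Φ q.1 q.2)
      (fderiv ℝ (fun q : ℝ × (E × E) => Φ q.1 q.2) (t, x)) (t, x) :=
    (h.smooth.differentiable (by simp) _).hasFDerivAt
  have h2 : HasFDerivAt (fun z : E × E => ((t, z) : ℝ × (E × E)))
      (ContinuousLinearMap.inr ℝ ℝ (E × E)) x := hasFDerivAt_prodMk_right t x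
  have h3 := h1.comp x h2
  have h4 : HasFDerivAt (Φ t) _ x := h3
  rw [h4.fderiv]
  simp

/-- the linearised flow -/
theorem hasDerivAt_fderiv (hG : IsMetricOn G U) (h : IsGeoFlow G U y0 r Φ) {x : E × E}
    (hx : x ∈ ball (y0, (0 : E)) r) {t : ℝ} (ht : t ∈ Ioo (-3 : ℝ) 3) (k : E × E) :
    HasDerivAt (fun s => fderiv ℝ (Φ s) x k)
      (fderiv ℝ (geoV G) (Φ t x) (fderiv ℝ (Φ t) x k)) t := by
  obtain ⟨F, hF⟩ : ∃ F : ℝ × (E × E) → E × E, F = fun q => Φ q.1 q.2 := ⟨_, rfl⟩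
  have hFs : ContDiff ℝ ∞ F := by rw [hF]; exact h.smooth
  have hsym : IsSymmSndFDerivAt ℝ F (t, x) :=
    hFs.contDiffAt.isSymmSndFDerivAt (by
      rw [minSmoothness_of_isRCLikeNormedField]
      decide)
  have hdF : Differentiable ℝ (fderiv ℝ F) :=
    (hFs.fderiv_right (m := ∞) (by simp)).differentiable (by simp)
  have hd2 : HasFDerivAt (fderiv ℝ F) (fderiv ℝ (fderiv ℝ F) (t, x)) (t, x) :=
    (hdF _).hasFDerivAt
  -- derivative in time
  have h1 : HasDerivAt (fun s : ℝ => ((s, x) : ℝ × (E × E))) (1, 0) t :=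
    (hasDerivAt_id t).prodMk (hasDerivAt_const t x)
  have h2 : HasDerivAt (fun s : ℝ => fderiv ℝ F (s, x)) (fderiv ℝ (fderiv ℝ F) (t, x) (1, 0)) t :=
    hd2.comp_hasDerivAt t h1
  have h3 : HasDerivAt (fun s : ℝ => fderiv ℝ F (s, x) (0, k))
      (fderiv ℝ (fderiv ℝ F) (t, x) (1, 0) (0, k)) t := by
    have := h2.clm_apply (hasDerivAt_const t ((0, k) : ℝ × (E × E)))
    simpa using this
  have h4 : (fun s => fderiv ℝ (Φ s) x k) = fun s => fderiv ℝ F (s, x) (0, k) := by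
    funext s
    rw [h.fderiv_right_eq, hF]
  rw [h4]
  refine h3.congr_deriv ?_
  rw [hsym.eq (1, 0) (0, k)]
  -- the time derivative of `F` is the vector field
  have hopen : IsOpen {q : ℝ × (E × E) | q.1 ∈ Ioo (-3 : ℝ) 3 ∧ q.2 ∈ ball (y0, (0 : E)) r} :=
    (isOpen_Ioo.preimage continuous_fst).inter (isOpen_ball.preimage continuous_snd)
  have h5 : (fun q => fderiv ℝ F q (1, 0)) =ᶠ[𝓝 (t, x)] fun q => geoV G (F q) := by
    filter_upwards [hopen.mem_nhds (show (t, x) ∈ _ from ⟨ht, hx⟩)] with q hq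
    have h6 : HasFDerivAt F (fderiv ℝ F q) q := (hFs.differentiable (by simp) q).hasFDerivAt
    have h7 : HasDerivAt (fun s : ℝ => ((s, q.2) : ℝ × (E × E))) (1, 0) q.1 :=
      (hasDerivAt_id q.1).prodMk (hasDerivAt_const q.1 q.2)
    have h8 : HasDerivAt (fun s : ℝ => F (s, q.2)) (fderiv ℝ F q (1, 0)) q.1 :=
      h6.comp_hasDerivAt q.1 h7
    have h9 := h.deriv q.2 hq.2 q.1 hq.1
    have h10 : HasDerivAt (fun s : ℝ => F (s, q.2)) (geoV G (F q)) q.1 := by
      rw [hF]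
      exact h9
    exact h8.unique h10
  have h6 : HasFDerivAt (fun q => fderiv ℝ F q (1, 0)) _ (t, x) :=
    hd2.clm_apply (hasFDerivAt_const ((1, 0) : ℝ × (E × E)) (t, x))
  have hFt : F (t, x) = Φ t x := by rw [hF]
  have h7 : HasFDerivAt (fun q => geoV G (F q)) ((fderiv ℝ (geoV G) (Φ t x)).comp
      (fderiv ℝ F (t, x))) (t, x) := by
    have h8 := (hG.differentiableAt_geoV (h.mem x hx t ht)).hasFDerivAt
    rw [← hFt] at h8 ⊢
    exact h8.comp (t, x) (hFs.differentiable (by simp) _).hasFDerivAt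
  have h8 := (h6.congr_of_eventuallyEq h5.symm).unique h7
  have h9 := congrArg (fun L : ℝ × (E × E) →L[ℝ] E × E => L (0, k)) h8
  simp only [add_apply, ContinuousLinearMap.comp_apply, ContinuousLinearMap.flip_apply,
    map_zero, zero_add, zero_apply] at h9
  rw [h.fderiv_right_eq]
  rw [hF] at h9 ⊢
  exact h9

/-- **Gauss lemma** (variation of the canonical one form along the geodesic flow). -/
theorem gauss (hG : IsMetricOn G U) (h : IsGeoFlow G U y0 r Φ) {x : E × E}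
    (hx : x ∈ ball (y0, (0 : E)) r) {t : ℝ} (ht : t ∈ Ioo (-3 : ℝ) 3) (k : E × E) :
    G (Φ t x).1 (Φ t x).2 (fderiv ℝ (Φ t) x k).1 =
      G x.1 x.2 k.1 + t / 2 * fderiv ℝ (en G) x k := by
  have hen : ∀ t ∈ Ioo (-3 : ℝ) 3, fderiv ℝ (en G) (Φ t x) (fderiv ℝ (Φ t) x k) =
      fderiv ℝ (en G) x k := by
    intro t ht
    have h1 : (fun z => en G (Φ t z)) =ᶠ[𝓝 x] en G := by
      filter_upwards [isOpen_ball.mem_nhds hx] with z hz
      exact h.energy hG hz ht
    have h2 : HasFDerivAt (fun z => en G (Φ t z)) ((fderiv ℝ (en G) (Φ t x)).comp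
        (fderiv ℝ (Φ t) x)) x :=
      (hG.differentiableAt_en (h.mem x hx t ht)).hasFDerivAt.comp x (h.hasFDerivAt_right t x)
    have hx0 : x.1 ∈ U := by
      have := h.mem x hx 0 (by simp)
      rwa [h.zero] at this
    have h3 := (h2.congr_of_eventuallyEq h1.symm).unique (hG.differentiableAt_en hx0).hasFDerivAt
    exact congrArg (fun L : E × E →L[ℝ] ℝ => L k) h3
  have hder : ∀ t ∈ Ioo (-3 : ℝ) 3, HasDerivAt (fun s => G (Φ s x).1 (Φ s x).2
      (fderiv ℝ (Φ s) x k).1 - s / 2 * fderiv ℝ (en G) x k) 0 t := by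
    intro t ht
    have hU := h.mem x hx t ht
    have hd := h.deriv x hx t ht
    have hd1 : HasDerivAt (fun s => (Φ s x).1) (Φ t x).2 t := hasDerivAt_fst' hd
    have hd2 : HasDerivAt (fun s => (Φ s x).2) (acc G (Φ t x).1 (Φ t x).2) t := hasDerivAt_snd' hd
    have hg : HasDerivAt (fun s => G (Φ s x).1) (fderiv ℝ G (Φ t x).1 (Φ t x).2) t :=
      (hG.differentiableAt hU).hasFDerivAt.comp_hasDerivAt t hd1
    have hj := h.hasDerivAt_fderiv hG hx ht k
    have hj1 : HasDerivAt (fun s => (fderiv ℝ (Φ s) x k).1) (fderiv ℝ (Φ t) x k).2 t := by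
      refine (hasDerivAt_fst' hj).congr_deriv ?_
      exact hG.fderiv_geoV_fst hU _
    have h2 := (hg.clm_apply hd2).clm_apply hj1
    have h3 : HasDerivAt (fun s : ℝ => s / 2 * fderiv ℝ (en G) x k)
        (1 / 2 * fderiv ℝ (en G) x k) t :=
      ((hasDerivAt_id t).div_const 2).mul_const _
    refine (h2.sub h3).congr_deriv ?_
    rw [← hen t ht, hG.fderiv_en hU]
    simp only [add_apply]
    rw [hG.apply_acc hU]
    ring
  have h2 := (isOpen_Ioo.is_const_of_deriv_eq_zero isPreconnected_Ioo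
      (fun s hs => (hder s hs).differentiableAt.differentiableWithinAt)
      (fun s hs => (hder s hs).deriv) ht (by simp : (0 : ℝ) ∈ Ioo (-3 : ℝ) 3))
  simp only [h.zero] at h2
  have h3 : fderiv ℝ (Φ 0) x k = k := by
    have h4 : Φ 0 = id := by funext z; exact h.zero z
    rw [h4, fderiv_id]
    rfl
  rw [h3] at h2
  simp only [zero_div, zero_mul, sub_zero] at h2
  linarith

end IsGeoFlow

end Pool.Agent.BL.G2
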